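import Pool.Agent.H491R3.PE.Near

set_option autoImplicit false

namespace Pool.Agent.Results.MP_606be1_nt.NearCoincidenceCriterion

open Real Filter Asymptotics

/-- The pairs of natural numbers `(n, m)` with `|a ^ n - b ^ m| ≤ x`. -/
def pairs (a b x : ℝ) : Set (ℕ × ℕ) := {p | |a ^ p.1 - b ^ p.2| ≤ x}

/-- The near misses: `n` and `m` are coprime and `|a ^ n - b ^ m| < a ^ (n / 2)`. -/
def nearMisses (a b : ℝ) : Set (ℕ × ℕ) :=
  {p | p.1.Coprime p.2 ∧ |a ^ p.1 - b ^ p.2| ^ 2 < a ^ p.1}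

/-- The near misses with `|a ^ n - b ^ m| ≤ x`. -/
def nearMissesUpTo (a b x : ℝ) : Set (ℕ × ℕ) :=
  {p | p ∈ nearMisses a b ∧ |a ^ p.1 - b ^ p.2| ≤ x}

/-- The case `a = π`, `b = e` of the first part is Q1. -/
theorem result (a b : ℝ) (ha : 1 < a) (hb : 1 < b) :
    (((fun x : ℝ => ((pairs a b x).ncard : ℝ)) ~[atTop]
        (fun x : ℝ => log x ^ 2 / (log a * log b))) ↔
      (Irrational (log a / log b) ∧ (∀ x, (nearMissesUpTo a b x).Finite) ∧
        (fun x : ℝ => ((nearMissesUpTo a b x).ncard : ℝ)) =o[atTop] (fun x : ℝ => log x ^ 2))) ∧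
    (Irrational (log a / log b) → (∀ x, (nearMissesUpTo a b x).Finite) →
      ∃ C : ℝ, ∀ x : ℝ, 2 ≤ x → (pairs a b x).Finite ∧
        |((pairs a b x).ncard : ℝ) - log x ^ 2 / (log a * log b) -
          ((nearMissesUpTo a b x).ncard : ℝ)| ≤ C * log x) ∧
    (∃ n₀ : ℕ, ∀ p ∈ nearMisses a b, n₀ ≤ p.1 →
      (∃ k, (log a / log b).convergent k = (p.2 : ℚ) / p.1) ∧
      (∀ q ∈ nearMisses a b, p.1 < q.1 → log b / 4 * √a ^ p.1 ≤ q.1)) :=
  ⟨Pool.Agent.H491R3.PE.criterionS ha hb, Pool.Agent.H491R3.PE.countS ha hb,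
    Pool.Agent.H491R3.PE.structureS ha hb⟩

end Pool.Agent.Results.MP_606be1_nt.NearCoincidenceCriterion
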