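import Pool.Agent.H491R3.PE.Generic

set_option autoImplicit false

namespace Pool.Agent.Results.MP_606be1_nt.RelatedConjectureFails

open Real Filter MeasureTheory

/-- The pairs of natural numbers `(n, m)` with `|a ^ n - b ^ m| ≤ x`. -/
def pairs (a b x : ℝ) : Set (ℕ × ℕ) := {p | |a ^ p.1 - b ^ p.2| ≤ x}

/-- Measure against category, for a fixed real `b > 1`: for almost every `a > 1` the number of
pairs is `(log x) ^ 2 / (log a * log b) + O(log x)`; for Baire-generic `a > 1` the numbers `a`
and `b` are multiplicatively independent and yet there are infinitely many pairs, whatever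
`x > 0` is. -/
theorem result (b : ℝ) (hb : 1 < b) :
    (∀ᵐ a : ℝ, 1 < a → ∃ C : ℝ, ∀ x : ℝ, 2 ≤ x → (pairs a b x).Finite ∧
      |((pairs a b x).ncard : ℝ) - log x ^ 2 / (log a * log b)| ≤ C * log x) ∧
    (∀ᶠ a in residual ℝ, 1 < a →
      (∀ n m : ℤ, a ^ n = b ^ m → n = 0 ∧ m = 0) ∧ ∀ x : ℝ, 0 < x → (pairs a b x).Infinite) := by
  constructor
  · filter_upwards [Pool.Agent.H491R3.PE.ae_tame hb] with a h ha
    exact Pool.Agent.H491R3.PE.tame ha hb (h ha).1 (h ha).2
  · exact Pool.Agent.H491R3.PE.generic hb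

end Pool.Agent.Results.MP_606be1_nt.RelatedConjectureFails
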